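import Mathlib

namespace Pool.Agent.Lib.MP_52d9f3_co

open Finset

lemma card_all_ne_zero {E : Type} [Fintype E] [DecidableEq E] (Q : ℕ) (T : Finset E) :
    ((univ.filter fun ω : E → Fin (Q + 1) => ∀ t ∈ T, ω t ≠ 0).card : ℝ)
      = (1 - 1 / ((Q : ℝ) + 1)) ^ T.card * ((Q : ℝ) + 1) ^ Fintype.card E := by
  have h : (univ.filter fun ω : E → Fin (Q + 1) => ∀ t ∈ T, ω t ≠ 0)
      = Fintype.piFinset fun t => if t ∈ T then univ.erase 0 else univ := by
    ext ω
    simp only [mem_filter, mem_univ, true_and, Fintype.mem_piFinset]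
    constructor
    · intro h t
      split_ifs with ht
      · simp [h t ht]
      · simp
    · intro h t ht
      have := h t
      simpa [ht] using this
  rw [h, Fintype.card_piFinset]
  push_cast
  have h2 : ∀ t : E, (((if t ∈ T then univ.erase 0 else univ : Finset (Fin (Q + 1))).card : ℕ) : ℝ)
      = (if t ∈ T then (1 - 1 / ((Q : ℝ) + 1)) else 1) * ((Q : ℝ) + 1) := by
    intro t
    split_ifs
    · rw [card_erase_of_mem (mem_univ _)]
      simp only [card_univ, Fintype.card_fin, add_tsub_cancel_right]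
      field_simp
      ring
    · simp
  rw [Finset.prod_congr rfl fun t _ => h2 t, Finset.prod_mul_distrib, Finset.prod_ite_mem,
    Finset.univ_inter]
  simp

lemma card_eq_zero' {E : Type} [Fintype E] [DecidableEq E] (Q : ℕ) (t : E) :
    ((univ.filter fun ω : E → Fin (Q + 1) => ω t = 0).card : ℝ)
      = 1 / ((Q : ℝ) + 1) * ((Q : ℝ) + 1) ^ Fintype.card E := by
  have h1 := card_all_ne_zero Q {t}
  have h2 := Finset.card_filter_add_card_filter_not (s := (univ : Finset (E → Fin (Q + 1))))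
    (fun ω => ω t = 0)
  have h3 : (univ.filter fun ω : E → Fin (Q + 1) => ∀ t' ∈ ({t} : Finset E), ω t' ≠ 0)
      = univ.filter fun ω : E → Fin (Q + 1) => ¬ ω t = 0 := by
    ext ω; simp
  rw [h3] at h1
  have h4 : ((univ.filter fun ω : E → Fin (Q + 1) => ω t = 0).card : ℝ)
      + ((univ.filter fun ω : E → Fin (Q + 1) => ¬ ω t = 0).card : ℝ)
      = ((Q : ℝ) + 1) ^ Fintype.card E := by
    rw [← Nat.cast_add, h2]; simp
  rw [h1] at h4
  simp only [card_singleton, pow_one] at h4
  linarith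

theorem exists_alive {D C : Type} [Fintype D] [DecidableEq D] [Fintype C] [Nonempty C]
    (A : C → Finset (D × D)) (K Q l : ℕ) (hA : ∀ c, (A c).card ≤ K)
    (h : (Fintype.card D : ℝ) ^ (2 * l) * (1 - 1 / ((Q : ℝ) + 1)) ^ (l * l)
      + 4 * K / ((Q : ℝ) + 1) < 1) :
    ∃ ω : D × D → Fin (Q + 1),
      (∀ u v : Fin l → D, Function.Injective u → Function.Injective v →
        ∃ a b, ω (u a, v b) = 0) ∧
      4 * (univ.filter fun c => ∃ t ∈ A c, ω t = 0).card < Fintype.card C := by
  classical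
  set W : ℝ := ((Q : ℝ) + 1) ^ Fintype.card (D × D) with hW
  have hWpos : 0 < W := by positivity
  have hCpos : (0 : ℝ) < Fintype.card C := by exact_mod_cast Fintype.card_pos
  have hδ : (0 : ℝ) ≤ 1 - 1 / ((Q : ℝ) + 1) := by
    rw [sub_nonneg, div_le_one (by positivity)]; linarith [(Nat.cast_nonneg Q : (0 : ℝ) ≤ Q)]
  let bad : Finset (D × D → Fin (Q + 1)) := univ.filter fun ω =>
    ∃ u v : Fin l → D, Function.Injective u ∧ Function.Injective v ∧ ∀ a b, ω (u a, v b) ≠ 0
  have hbad : (bad.card : ℝ)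
      ≤ (Fintype.card D : ℝ) ^ (2 * l) * (1 - 1 / ((Q : ℝ) + 1)) ^ (l * l) * W := by
    let I : Finset ((Fin l → D) × (Fin l → D)) :=
      univ.filter fun uv => Function.Injective uv.1 ∧ Function.Injective uv.2
    let T : (Fin l → D) × (Fin l → D) → Finset (D × D) := fun uv =>
      univ.image fun ab : Fin l × Fin l => (uv.1 ab.1, uv.2 ab.2)
    have hsub : bad ⊆ I.biUnion fun uv => univ.filter fun ω => ∀ t ∈ T uv, ω t ≠ 0 := by
      intro ω hω
      simp only [bad, mem_filter, mem_univ, true_and] at hω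
      obtain ⟨u, v, hu, hv, huv⟩ := hω
      simp only [mem_biUnion, mem_filter, mem_univ, true_and, I, T, mem_image]
      refine ⟨(u, v), ⟨hu, hv⟩, ?_⟩
      rintro t ⟨ab, rfl⟩
      exact huv _ _
    have h1 : (bad.card : ℝ) ≤ ∑ uv ∈ I,
        ((univ.filter fun ω : D × D → Fin (Q + 1) => ∀ t ∈ T uv, ω t ≠ 0).card : ℝ) := by
      exact_mod_cast (card_le_card hsub).trans card_biUnion_le
    have h2 : ∀ uv ∈ I,
        ((univ.filter fun ω : D × D → Fin (Q + 1) => ∀ t ∈ T uv, ω t ≠ 0).card : ℝ)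
          = (1 - 1 / ((Q : ℝ) + 1)) ^ (l * l) * W := by
      intro uv huv
      simp only [I, mem_filter, mem_univ, true_and] at huv
      rw [card_all_ne_zero, card_image_of_injective]
      · simp [hW]
      · intro ab ab' hab
        simp only [Prod.mk.injEq] at hab
        exact Prod.ext (huv.1 hab.1) (huv.2 hab.2)
    rw [sum_congr rfl h2, sum_const, nsmul_eq_mul] at h1
    have h3 : (I.card : ℝ) ≤ (Fintype.card D : ℝ) ^ (2 * l) := by
      have : I.card ≤ Fintype.card ((Fin l → D) × (Fin l → D)) := card_le_univ _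
      simp only [Fintype.card_prod, Fintype.card_pi, prod_const, card_univ,
        Fintype.card_fin] at this
      rw [two_mul, pow_add]
      exact_mod_cast this
    calc (bad.card : ℝ) ≤ _ := h1
      _ ≤ (Fintype.card D : ℝ) ^ (2 * l) * ((1 - 1 / ((Q : ℝ) + 1)) ^ (l * l) * W) := by
        gcongr
      _ = _ := by ring
  let dead : (D × D → Fin (Q + 1)) → ℕ := fun ω =>
    (univ.filter fun c => ∃ t ∈ A c, ω t = 0).card
  have hdead : ∑ ω, (dead ω : ℝ) ≤ Fintype.card C * (K / ((Q : ℝ) + 1) * W) := by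
    have h1 : ∑ ω, (dead ω : ℝ) = ∑ c, ((univ.filter fun ω : D × D → Fin (Q + 1) =>
        ∃ t ∈ A c, ω t = 0).card : ℝ) := by
      simp only [dead, card_filter]
      push_cast
      exact sum_comm
    have h2 : ∀ c, ((univ.filter fun ω : D × D → Fin (Q + 1) =>
        ∃ t ∈ A c, ω t = 0).card : ℝ) ≤ K / ((Q : ℝ) + 1) * W := by
      intro c
      have hsub : (univ.filter fun ω : D × D → Fin (Q + 1) => ∃ t ∈ A c, ω t = 0)
          ⊆ (A c).biUnion fun t => univ.filter fun ω => ω t = 0 := by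
        intro ω hω
        simpa using hω
      have h3 : ((univ.filter fun ω : D × D → Fin (Q + 1) => ∃ t ∈ A c, ω t = 0).card : ℝ)
          ≤ ∑ t ∈ A c, ((univ.filter fun ω : D × D → Fin (Q + 1) => ω t = 0).card : ℝ) := by
        exact_mod_cast (card_le_card hsub).trans card_biUnion_le
      rw [sum_congr rfl fun t _ => card_eq_zero' Q t, sum_const, nsmul_eq_mul] at h3
      have h4 : ((A c).card : ℝ) ≤ K := by exact_mod_cast hA c
      calc _ ≤ _ := h3
        _ ≤ K * (1 / ((Q : ℝ) + 1) * W) := by gcongr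
        _ = _ := by ring
    rw [h1]
    calc _ ≤ ∑ _c : C, K / ((Q : ℝ) + 1) * W := sum_le_sum fun c _ => h2 c
      _ = _ := by simp
  by_contra hcon
  push Not at hcon
  have hall : ∀ ω : D × D → Fin (Q + 1), (Fintype.card C : ℝ)
      ≤ Fintype.card C * (if ω ∈ bad then 1 else 0) + 4 * dead ω := by
    intro ω
    by_cases hω : ω ∈ bad
    · simp only [hω, if_true, mul_one]
      have : (0 : ℝ) ≤ dead ω := Nat.cast_nonneg _
      linarith
    · simp only [hω, if_false, mul_zero, zero_add]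
      have := hcon ω (by
        intro u v hu hv
        by_contra hc
        push Not at hc
        exact hω (by simp only [bad, mem_filter, mem_univ, true_and]; exact ⟨u, v, hu, hv, hc⟩))
      exact_mod_cast this
  have hsum := sum_le_sum fun ω (_ : ω ∈ univ) => hall ω
  rw [sum_add_distrib, ← mul_sum, ← mul_sum, sum_const, nsmul_eq_mul] at hsum
  have hb : ∑ ω : D × D → Fin (Q + 1), (if ω ∈ bad then (1 : ℝ) else 0) = bad.card := by
    simp
  have hcard : ((univ : Finset (D × D → Fin (Q + 1))).card : ℝ) = W := by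
    simp [hW]
  rw [hb, hcard] at hsum
  have h5 : W * Fintype.card C ≤ Fintype.card C * W *
      ((Fintype.card D : ℝ) ^ (2 * l) * (1 - 1 / ((Q : ℝ) + 1)) ^ (l * l)
        + 4 * K / ((Q : ℝ) + 1)) := by
    calc W * Fintype.card C ≤ _ := hsum
      _ ≤ Fintype.card C * ((Fintype.card D : ℝ) ^ (2 * l) *
          (1 - 1 / ((Q : ℝ) + 1)) ^ (l * l) * W)
          + 4 * (Fintype.card C * (K / ((Q : ℝ) + 1) * W)) := by gcongr
      _ = _ := by ring
  have h6 : Fintype.card C * W * ((Fintype.card D : ℝ) ^ (2 * l) *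
      (1 - 1 / ((Q : ℝ) + 1)) ^ (l * l) + 4 * K / ((Q : ℝ) + 1)) < Fintype.card C * W * 1 := by
    gcongr
  linarith

end Pool.Agent.Lib.MP_52d9f3_co
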