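import Mathlib

namespace Pool.Agent.Lib.MP_52d9f3_co

/-- `π` contains the uniform distant pattern `dist_r(q)`: there are positions `i_0, ..., i_{m-1}`
with `i_{j+1} - i_j ≥ r + 1` at which the values of `π` are order isomorphic to `q`. -/
def ContainsDist (r : ℕ) {m n : ℕ} (q : Equiv.Perm (Fin m)) (π : Equiv.Perm (Fin n)) : Prop :=
  ∃ i : Fin m → Fin n,
    (∀ j j' : Fin m, (j' : ℕ) = (j : ℕ) + 1 → (i j : ℕ) + (r + 1) ≤ (i j' : ℕ)) ∧
    ∀ a b : Fin m, π (i a) < π (i b) ↔ q a < q b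

/-- The number of permutations of length `n` that avoid `dist_r(q)`. -/
noncomputable def avCount (r n : ℕ) {m : ℕ} (q : Equiv.Perm (Fin m)) : ℕ :=
  Nat.card {π : Equiv.Perm (Fin n) // ¬ ContainsDist r q π}

end Pool.Agent.Lib.MP_52d9f3_co
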