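import Mathlib
import Pool.Agent.Lib.MP_52d9f3_co.Alive

namespace Pool.Agent.Lib.MP_52d9f3_co

open Finset

/-- Disjoint intervals have distinct smallest dyadic hulls. -/
lemma exists_labels (H l : ℕ) (lo hi : Fin l → ℕ) (h1 : ∀ a, lo a < hi a)
    (h2 : ∀ a, hi a < 2 ^ H) (h3 : ∀ a a', a < a' → hi a ≤ lo a') :
    ∃ s : Fin l → Fin (H + 1), (∀ a, lo a / 2 ^ (s a : ℕ) = hi a / 2 ^ (s a : ℕ)) ∧
      ∀ a a', s a = s a' → lo a / 2 ^ (s a : ℕ) = lo a' / 2 ^ (s a' : ℕ) → a = a' := by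
  classical
  have hH : ∀ a, lo a / 2 ^ H = hi a / 2 ^ H := by
    intro a
    rw [Nat.div_eq_of_lt (h2 a), Nat.div_eq_of_lt ((h1 a).trans (h2 a))]
  have hex : ∀ a, ∃ s, lo a / 2 ^ s = hi a / 2 ^ s := fun a => ⟨H, hH a⟩
  have hle : ∀ a, Nat.find (hex a) ≤ H := fun a => Nat.find_min' _ (hH a)
  have key : ∀ a a', a < a' → Nat.find (hex a) = Nat.find (hex a') →
      lo a / 2 ^ Nat.find (hex a) = lo a' / 2 ^ Nat.find (hex a') → False := by
    intro a a' haa hs he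
    have hp := Nat.find_spec (hex a)
    have hp' := Nat.find_spec (hex a')
    obtain ⟨t, ht⟩ : ∃ t, Nat.find (hex a) = t + 1 := by
      apply Nat.exists_eq_succ_of_ne_zero
      intro h0
      rw [h0] at hp
      simp only [pow_zero, Nat.div_one] at hp
      exact absurd hp (h1 a).ne
    have hm := Nat.find_min (hex a) (m := t) (by omega)
    have hm' := Nat.find_min (hex a') (m := t) (by omega)
    rw [← hs] at he hp'
    rw [ht] at he hp hp'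
    simp only [pow_succ, ← Nat.div_div_eq_div_mul] at he hp hp'
    have e1 : lo a / 2 ^ t ≤ hi a / 2 ^ t := Nat.div_le_div_right (h1 a).le
    have e2 : hi a / 2 ^ t ≤ lo a' / 2 ^ t := Nat.div_le_div_right (h3 a a' haa)
    have e3 : lo a' / 2 ^ t ≤ hi a' / 2 ^ t := Nat.div_le_div_right (h1 a').le
    omega
  refine ⟨fun a => ⟨Nat.find (hex a), Nat.lt_succ_of_le (hle a)⟩, fun a => Nat.find_spec (hex a), ?_⟩
  intro a a' hs he
  simp only [Fin.mk.injEq] at hs he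
  rcases lt_trichotomy a a' with h | h | h
  · exact (key a a' h hs he).elim
  · exact h
  · exact (key a' a h hs.symm he.symm).elim

/-- The dyadic interval of level `s` containing `x`. -/
def lab (H : ℕ) (s : Fin (H + 1)) (x : Fin (2 ^ H)) : Fin (H + 1) × Fin (2 ^ H) :=
  (s, ⟨x / 2 ^ (s : ℕ), lt_of_le_of_lt (Nat.div_le_self _ _) x.2⟩)

lemma exists_labels' (H l : ℕ) (lo hi : Fin l → Fin (2 ^ H)) (h1 : ∀ a, lo a < hi a)
    (h3 : ∀ a a', a < a' → hi a ≤ lo a') :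
    ∃ u : Fin l → Fin (H + 1) × Fin (2 ^ H), Function.Injective u ∧
      ∀ a z, lo a ≤ z → z ≤ hi a → ∃ s, u a = lab H s z := by
  obtain ⟨s, hs1, hs2⟩ := exists_labels H l (fun a => lo a) (fun a => hi a) h1
    (fun a => (hi a).2) h3
  refine ⟨fun a => lab H (s a) (lo a), ?_, ?_⟩
  · intro a a' h
    simp only [lab, Prod.mk.injEq, Fin.mk.injEq] at h
    exact hs2 a a' h.1 h.2
  · intro a z hz1 hz2
    refine ⟨s a, ?_⟩
    simp only [lab, Prod.mk.injEq, Fin.mk.injEq, true_and]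
    have e1 : (lo a : ℕ) / 2 ^ (s a : ℕ) ≤ z / 2 ^ (s a : ℕ) := Nat.div_le_div_right hz1
    have e2 : (z : ℕ) / 2 ^ (s a : ℕ) ≤ hi a / 2 ^ (s a : ℕ) := Nat.div_le_div_right hz2
    have : (lo a : ℕ) / 2 ^ (s a : ℕ) = hi a / 2 ^ (s a : ℕ) := hs1 a
    omega

lemma numeric (G l Q D : ℕ) (hG1 : 1 ≤ G) (hl : l = 40 * G ^ 3) (hQ : Q + 1 = 8 * G ^ 2)
    (hD : D ≤ 2 ^ (2 * G)) :
    (D : ℝ) ^ (2 * l) * (1 - 1 / ((Q : ℝ) + 1)) ^ (l * l)
      + 4 * ((G ^ 2 : ℕ) : ℝ) / ((Q : ℝ) + 1) < 1 := by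
  have hQpos : (0 : ℝ) < (Q : ℝ) + 1 := by positivity
  have h2 : 4 * ((G ^ 2 : ℕ) : ℝ) / ((Q : ℝ) + 1) = 1 / 2 := by
    have : ((Q : ℝ) + 1) = 8 * ((G ^ 2 : ℕ) : ℝ) := by exact_mod_cast hQ
    rw [div_eq_iff hQpos.ne', this]; ring
  rw [h2]
  have hδ : (0 : ℝ) ≤ 1 - 1 / ((Q : ℝ) + 1) := by
    rw [sub_nonneg, div_le_one hQpos]; linarith [(Nat.cast_nonneg Q : (0 : ℝ) ≤ Q)]
  have h3 : (1 - 1 / ((Q : ℝ) + 1)) ^ (Q + 1) ≤ 1 / 2 := by
    have e1 : (1 - 1 / ((Q : ℝ) + 1)) ≤ Real.exp (-(1 / ((Q : ℝ) + 1))) := by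
      have := Real.add_one_le_exp (-(1 / ((Q : ℝ) + 1)))
      linarith
    have e2 : (1 - 1 / ((Q : ℝ) + 1)) ^ (Q + 1) ≤ Real.exp (-(1 / ((Q : ℝ) + 1))) ^ (Q + 1) :=
      pow_le_pow_left₀ hδ e1 _
    rw [← Real.exp_nat_mul] at e2
    have e3 : ((Q + 1 : ℕ) : ℝ) * -(1 / ((Q : ℝ) + 1)) = -1 := by push_cast; field_simp
    rw [e3] at e2
    have e4 : Real.exp (-1) ≤ 1 / 2 := by
      rw [Real.exp_neg, one_div]
      apply inv_anti₀ (by norm_num)
      have := Real.add_one_le_exp (1 : ℝ)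
      linarith
    linarith
  have hll : l * l = (Q + 1) * (5 * (G * l)) := by rw [hQ, hl]; ring
  have h7 : 2 ≤ G * l := by
    have : 1 ≤ G ^ 3 := Nat.one_le_pow _ _ hG1
    calc 2 ≤ 1 * l := by omega
      _ ≤ G * l := Nat.mul_le_mul_right _ hG1
  have h5 : (D : ℝ) ≤ 2 ^ (2 * G) := by exact_mod_cast hD
  have h6 : (D : ℝ) ^ (2 * l) ≤ 2 ^ (4 * (G * l)) := by
    have e : 4 * (G * l) = (2 * G) * (2 * l) := by ring
    rw [e, pow_mul (2 : ℝ) (2 * G)]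
    exact pow_le_pow_left₀ (Nat.cast_nonneg _) h5 _
  generalize G * l = e at *
  have h4 : (1 - 1 / ((Q : ℝ) + 1)) ^ (l * l) ≤ (1 / 2) ^ (5 * e) := by
    rw [hll, pow_mul]
    exact pow_le_pow_left₀ (pow_nonneg hδ _) h3 _
  have h8 : (2 : ℝ) ^ (4 * e) * (1 / 2) ^ (5 * e) = (1 / 2) ^ e := by
    rw [pow_mul, pow_mul, ← mul_pow]; norm_num
  have h9 : (1 / 2 : ℝ) ^ e ≤ (1 / 2) ^ 2 :=
    pow_le_pow_of_le_one (by norm_num) (by norm_num) h7
  have h10 : (D : ℝ) ^ (2 * l) * (1 - 1 / ((Q : ℝ) + 1)) ^ (l * l)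
      ≤ (2 : ℝ) ^ (4 * e) * (1 / 2) ^ (5 * e) :=
    mul_le_mul h6 h4 (pow_nonneg hδ _) (by positivity)
  rw [h8] at h10
  have h11 := h10.trans h9
  generalize (D : ℝ) ^ (2 * l) * (1 - 1 / ((Q : ℝ) + 1)) ^ (l * l) = z at h11
  linarith

/-- A dense zero-one matrix without an `l × l` grid. -/
theorem exists_matrix (H l : ℕ) (hl : l + 2 = 40 * (H + 1) ^ 3) :
    ∃ M : Fin (2 ^ H) → Finset (Fin (2 ^ H)),
      4 * ∑ x, (M x)ᶜ.card < 2 ^ H * 2 ^ H ∧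
      ∀ x y : Fin (l + 2) → Fin (l + 2) → Fin (2 ^ H),
        (∀ a b b', b < b' → x a b < x a b') → (∀ a a' b b', a < a' → x a b < x a' b') →
        (∀ a a' b, a < a' → y a' b < y a b) → (∀ a a' b b', b < b' → y a b ≤ y a' b') →
        ∃ a b, y a b ∉ M (x a b) := by
  classical
  let A : Fin (2 ^ H) × Fin (2 ^ H) → Finset ((Fin (H + 1) × Fin (2 ^ H)) ×
      (Fin (H + 1) × Fin (2 ^ H))) := fun c =>
    univ.image fun s : Fin (H + 1) × Fin (H + 1) => (lab H s.1 c.1, lab H s.2 c.2)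
  have hA : ∀ c, (A c).card ≤ (H + 1) ^ 2 := by
    intro c
    refine card_image_le.trans ?_
    simp [sq]
  have : Nonempty (Fin (2 ^ H)) := ⟨⟨0, by positivity⟩⟩
  obtain ⟨ω, hω1, hω2⟩ := exists_alive A ((H + 1) ^ 2) (8 * (H + 1) ^ 2 - 1) (l + 2) hA (by
    apply numeric (H + 1) _ _ _ (by omega) hl
    · have : 0 < (H + 1) ^ 2 := by positivity
      omega
    · have e1 : H + 1 ≤ 2 ^ (H + 1) := Nat.lt_two_pow_self.le
      have e2 : 2 ^ H ≤ 2 ^ (H + 1) := Nat.pow_le_pow_right (by norm_num) (by omega)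
      rw [two_mul, pow_add, Fintype.card_prod, Fintype.card_fin, Fintype.card_fin]
      exact Nat.mul_le_mul e1 e2)
  refine ⟨fun x => univ.filter fun y => ¬ ∃ t ∈ A (x, y), ω t = 0, ?_, ?_⟩
  · have : ∑ x : Fin (2 ^ H), (univ.filter fun y => ¬ ∃ t ∈ A (x, y), ω t = 0)ᶜ.card
        = (univ.filter fun c => ∃ t ∈ A c, ω t = 0).card := by
      simp only [compl_filter, not_not, card_filter]
      rw [Fintype.sum_prod_type]
    rw [this]
    simpa using hω2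
  · intro x y hx1 hx2 hy1 hy2
    have hz : (0 : Fin (l + 2)) < Fin.last (l + 1) := by simp [Fin.lt_def]
    obtain ⟨u, hu, hu2⟩ := exists_labels' H (l + 2) (fun a => x a 0) (fun a => x a (Fin.last _))
      (fun a => hx1 a _ _ hz) (fun a a' h => (hx2 a a' _ _ h).le)
    obtain ⟨v, hv, hv2⟩ := exists_labels' H (l + 2) (fun b => y (Fin.last _) b) (fun b => y 0 b)
      (fun b => hy1 _ _ b hz) (fun b b' h => hy2 _ _ b b' h)
    obtain ⟨a, b, hab⟩ := hω1 u v hu hv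
    refine ⟨a, b, ?_⟩
    have mx : Monotone (x a) := (show StrictMono (x a) from fun b b' h => hx1 a b b' h).monotone
    have my : Antitone fun a => y a b :=
      (show StrictAnti (fun a => y a b) from fun a a' h => hy1 a a' b h).antitone
    obtain ⟨s, hs⟩ := hu2 a (x a b) (mx (Fin.zero_le _)) (mx (Fin.le_last _))
    obtain ⟨s', hs'⟩ := hv2 b (y a b) (my (Fin.le_last _)) (my (Fin.zero_le _))
    simp only [mem_filter, mem_univ, true_and, not_not]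
    refine ⟨(u a, v b), ?_, hab⟩
    simp only [A, mem_image, mem_univ, true_and]
    exact ⟨(s, s'), by rw [hs, hs']⟩

end Pool.Agent.Lib.MP_52d9f3_co
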