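import Mathlib
import Pool.Agent.Lib.MP_52d9f3_co.Defs
import Pool.Agent.Lib.MP_52d9f3_co.Matrix

namespace Pool.Agent.Lib.MP_52d9f3_co

open Finset

/-- The grid pattern: position `(a, b)` gets the value `(b, rev a)`, in lexicographic order. -/
def gridPerm (k : ℕ) : Equiv.Perm (Fin (k * k)) :=
  finProdFinEquiv.symm.trans
    (((Equiv.prodComm _ _).trans (Equiv.prodCongr (Equiv.refl _) Fin.revPerm)).trans finProdFinEquiv)

lemma gridPerm_apply (k : ℕ) (a b : Fin k) :
    gridPerm k (finProdFinEquiv (a, b)) = finProdFinEquiv (b, a.rev) := by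
  simp [gridPerm]

lemma fpf_lt_of_fst {k : ℕ} {a a' : Fin k} (b b' : Fin k) (h : a < a') :
    finProdFinEquiv (a, b) < finProdFinEquiv (a', b') := by
  rw [Fin.lt_def] at h ⊢
  simp only [finProdFinEquiv_apply_val]
  have := b.2
  have h2 : k * (a + 1) ≤ k * a' := Nat.mul_le_mul_left _ h
  rw [mul_add] at h2
  omega

lemma fpf_lt_of_snd {k : ℕ} (a : Fin k) {b b' : Fin k} (h : b < b') :
    finProdFinEquiv (a, b) < finProdFinEquiv (a, b') := by
  rw [Fin.lt_def] at h ⊢
  simp only [finProdFinEquiv_apply_val]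
  omega

lemma strictMono_of_gap {m n r : ℕ} (i : Fin m → Fin n)
    (h : ∀ j j' : Fin m, (j' : ℕ) = (j : ℕ) + 1 → (i j : ℕ) + (r + 1) ≤ (i j' : ℕ)) :
    StrictMono i := by
  cases m with
  | zero => intro a; exact a.elim0
  | succ m =>
    rw [Fin.strictMono_iff_lt_succ]
    intro j
    have := h j.castSucc j.succ (by simp)
    rw [Fin.lt_def]
    omega

lemma sort_le {n : ℕ} (g : Fin n → ℕ) (p p' : Fin n)
    (h : (Tuple.sort g)⁻¹ p < (Tuple.sort g)⁻¹ p') : g p ≤ g p' := by
  have := Tuple.monotone_sort g h.le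
  simpa using this

lemma sort_lt {n : ℕ} (g : Fin n → ℕ) (p p' : Fin n)
    (h : (Tuple.sort g)⁻¹ p < (Tuple.sort g)⁻¹ p') (hp : p' < p) : g p < g p' := by
  rcases (sort_le g p p' h).lt_or_eq with h1 | h1
  · exact h1
  · exfalso
    have := (Tuple.eq_sort_iff.mp (rfl : Tuple.sort g = Tuple.sort g)).2 _ _ h (by simpa using h1)
    simp only [Equiv.Perm.coe_inv, Equiv.apply_symm_apply] at this
    exact absurd (this.trans hp) (lt_irrefl _)

/-- Standardising a word placed in diagonal copies of a grid-free matrix avoids the grid pattern. -/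
lemma avoid_of_matrix {N n' l n r : ℕ} (hn' : 0 < n') (M : Fin N → Finset (Fin N))
    (hM : ∀ x y : Fin (l + 2) → Fin (l + 2) → Fin N,
        (∀ a b b', b < b' → x a b < x a b') → (∀ a a' b b', a < a' → x a b < x a' b') →
        (∀ a a' b, a < a' → y a' b < y a b) → (∀ a a' b b', b < b' → y a b ≤ y a' b') →
        ∃ a b, y a b ∉ M (x a b))
    (P : Fin n' ↪o Fin N) (y : Fin n → Fin N)
    (hy : ∀ p : Fin n, y p ∈ M (P ⟨(p : ℕ) % n', Nat.mod_lt _ hn'⟩)) :
    ¬ ContainsDist r (gridPerm (l + 2))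
      (Tuple.sort fun p : Fin n => ((p : ℕ) / n') * N + (y p : ℕ))⁻¹ := by
  set g : Fin n → ℕ := fun p : Fin n => ((p : ℕ) / n') * N + (y p : ℕ) with hg
  rintro ⟨i, hi1, hi2⟩
  have hi := strictMono_of_gap i hi1
  set p : Fin (l + 2) → Fin (l + 2) → Fin n := fun a b => i (finProdFinEquiv (a, b)) with hp
  have p1 : ∀ a b b', b < b' → p a b < p a b' := fun a b b' h => hi (fpf_lt_of_snd a h)
  have p2 : ∀ a a' b b', a < a' → p a b < p a' b' := fun a a' b b' h => hi (fpf_lt_of_fst b b' h)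
  have g1 : ∀ a a' b, a < a' → g (p a' b) < g (p a b) := by
    intro a a' b h
    apply sort_lt g _ _ _ (p2 a a' b b h)
    rw [hi2, gridPerm_apply, gridPerm_apply]
    exact fpf_lt_of_snd b (Fin.rev_lt_rev.mpr h)
  have g2 : ∀ a a' b b', b < b' → g (p a b) ≤ g (p a' b') := by
    intro a a' b b' h
    apply sort_le g
    rw [hi2, gridPerm_apply, gridPerm_apply]
    exact fpf_lt_of_fst _ _ h
  have hz : (0 : Fin (l + 2)) < Fin.last (l + 1) := by simp [Fin.lt_def]
  have blk1 : ∀ z z' : Fin n, z ≤ z' → (z : ℕ) / n' ≤ (z' : ℕ) / n' :=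
    fun z z' h => Nat.div_le_div_right h
  have blk2 : ∀ z z' : Fin n, g z ≤ g z' → (z : ℕ) / n' ≤ (z' : ℕ) / n' := by
    intro z z' h
    by_contra hc
    push Not at hc
    have h2 : ((z' : ℕ) / n' + 1) * N ≤ (z : ℕ) / n' * N := Nat.mul_le_mul_right _ hc
    have := (y z').2
    simp only [hg] at h
    rw [add_mul] at h2
    omega
  have hb : ∀ a b, (p a b : ℕ) / n' = (p 0 0 : ℕ) / n' := by
    intro a b
    have e1 := blk2 _ _ (g1 0 (Fin.last _) 0 hz).le
    have e2 := blk2 _ _ (g1 0 (Fin.last _) (Fin.last _) hz).le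
    have e3 := blk1 _ _ (p2 0 (Fin.last _) (Fin.last _) 0 hz).le
    have e4 : p 0 0 ≤ p a b := by
      apply hi.monotone
      rw [Fin.le_def]; simp
    have e5 : p a b ≤ p (Fin.last _) (Fin.last _) := by
      apply hi.monotone
      rw [Fin.le_def]
      simp only [finProdFinEquiv_apply_val, Fin.val_last]
      have h1 := a.2
      have h2 := b.2
      have h3 : (l + 2) * a ≤ (l + 2) * (l + 1) := Nat.mul_le_mul_left _ (by omega)
      omega
    have e6 := blk1 _ _ e4
    have e7 := blk1 _ _ e5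
    omega
  have hmod : ∀ a b a' b', p a b < p a' b' → (p a b : ℕ) % n' < (p a' b' : ℕ) % n' := by
    intro a b a' b' h
    have e1 := Nat.div_add_mod (p a b) n'
    have e2 := Nat.div_add_mod (p a' b') n'
    rw [hb] at e1 e2
    rw [Fin.lt_def] at h
    omega
  obtain ⟨a, b, hab⟩ := hM (fun a b => P ⟨p a b % n', Nat.mod_lt _ hn'⟩) (fun a b => y (p a b))
    (fun a b b' h => P.strictMono (hmod _ _ _ _ (p1 a b b' h)))
    (fun a a' b b' h => P.strictMono (hmod _ _ _ _ (p2 a a' b b' h)))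
    (fun a a' b h => by
      have := g1 a a' b h
      simp only [hg, hb] at this
      rw [Fin.lt_def]; omega)
    (fun a a' b b' h => by
      have := g2 a a' b b' h
      simp only [hg, hb] at this
      rw [Fin.le_def]; omega)
  exact hab (hy _)

lemma count_of_matrix {N n' l n r : ℕ} (hn' : 0 < n') (M : Fin N → Finset (Fin N))
    (hM : ∀ x y : Fin (l + 2) → Fin (l + 2) → Fin N,
        (∀ a b b', b < b' → x a b < x a b') → (∀ a a' b b', a < a' → x a b < x a' b') →
        (∀ a a' b, a < a' → y a' b < y a b) → (∀ a a' b b', b < b' → y a b ≤ y a' b') →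
        ∃ a b, y a b ∉ M (x a b))
    (P : Fin n' ↪o Fin N) (hP : ∀ b, n' ≤ (M (P b)).card) :
    n' ^ n ≤ avCount r n (gridPerm (l + 2)) * 2 ^ ((n / n' + 1) * N + n) := by
  classical
  let S : Finset (Fin n → Fin N) := Fintype.piFinset fun p : Fin n =>
    M (P ⟨(p : ℕ) % n', Nat.mod_lt _ hn'⟩)
  have hS : n' ^ n ≤ S.card := by
    rw [Fintype.card_piFinset]
    have := Finset.pow_card_le_prod (univ : Finset (Fin n))
      (fun p : Fin n => (M (P ⟨(p : ℕ) % n', Nat.mod_lt _ hn'⟩)).card) n' (fun p _ => hP _)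
    simpa using this
  let g : (Fin n → Fin N) → Fin n → ℕ := fun y p => (p / n') * N + y p
  let W := (n / n' + 1) * N + n
  have hgW : ∀ y p (j : Fin n), g y p + j < W := by
    intro y p j
    have h1 : (p : ℕ) / n' ≤ n / n' := Nat.div_le_div_right p.2.le
    have h2 : (p : ℕ) / n' * N ≤ n / n' * N := Nat.mul_le_mul_right _ h1
    have h3 := (y p).2
    have h4 := j.2
    simp only [g, W, add_mul]
    omega
  let f : (Fin n → Fin N) → Fin n → Fin W := fun y j => ⟨g y (Tuple.sort (g y) j) + j, hgW _ _ _⟩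
  have hf : ∀ y, StrictMono (f y) := by
    intro y j j' h
    have := Tuple.monotone_sort (g y) h.le
    simp only [Function.comp_apply] at this
    rw [Fin.lt_def] at h ⊢
    simp only [f]
    omega
  let Φ : S → {π : Equiv.Perm (Fin n) // ¬ ContainsDist r (gridPerm (l + 2)) π} × Finset (Fin W) :=
    fun y => (⟨(Tuple.sort (g y.1))⁻¹,
      avoid_of_matrix hn' M hM P y.1 (Fintype.mem_piFinset.mp y.2)⟩, univ.image (f y.1))
  have hΦ : Function.Injective Φ := by
    intro y y' h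
    simp only [Φ, Prod.mk.injEq, Subtype.mk.injEq, inv_inj] at h
    obtain ⟨h1, h2⟩ := h
    have h3 : f y.1 = f y'.1 := by
      rw [← (hf y.1).range_inj (hf y'.1)]
      have := congrArg (fun s : Finset (Fin W) => (s : Set (Fin W))) h2
      simpa using this
    apply Subtype.ext
    funext p
    have h4 := congrArg Fin.val (congrFun h3 ((Tuple.sort (g y.1))⁻¹ p))
    simp only [f, ← h1, Equiv.Perm.coe_inv, Equiv.apply_symm_apply, add_left_inj, g,
      add_right_inj] at h4
    exact Fin.ext h4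
  have := Nat.card_le_card_of_injective Φ hΦ
  rw [Nat.card_prod] at this
  simp only [Nat.card_eq_fintype_card, Fintype.card_coe, Fintype.card_finset,
    Fintype.card_fin] at this
  unfold avCount
  rw [Nat.card_eq_fintype_card]
  exact hS.trans this

theorem lower_bound (h l : ℕ) (hl : l + 2 = 40 * (h + 1 + 1) ^ 3) (r n : ℕ) :
    (2 ^ h) ^ n ≤ avCount r n (gridPerm (l + 2)) * 2 ^ (3 * n + 2 ^ (h + 1)) := by
  classical
  obtain ⟨M, hM1, hM2⟩ := exists_matrix (h + 1) l hl
  have hn' : 0 < 2 ^ h := by positivity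
  let G : Finset (Fin (2 ^ (h + 1))) := univ.filter fun x => 2 ^ h ≤ (M x).card
  have hG : 2 ^ h ≤ G.card := by
    by_contra hc
    push Not at hc
    have h1 : ∀ x ∈ Gᶜ, 2 ^ h ≤ (M x)ᶜ.card := by
      intro x hx
      simp only [G, mem_compl, mem_filter, mem_univ, true_and, not_le] at hx
      rw [card_compl, Fintype.card_fin]
      omega
    have h2 : Gᶜ.card * 2 ^ h ≤ ∑ x ∈ Gᶜ, (M x)ᶜ.card := by
      simpa using card_nsmul_le_sum _ _ _ h1
    have h3 : ∑ x ∈ Gᶜ, (M x)ᶜ.card ≤ ∑ x, (M x)ᶜ.card := sum_le_sum_of_subset (subset_univ _)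
    have h4 : 2 ^ h ≤ Gᶜ.card := by
      rw [card_compl, Fintype.card_fin]; omega
    have h5 : 2 ^ h * 2 ^ h ≤ Gᶜ.card * 2 ^ h := Nat.mul_le_mul_right _ h4
    have h6 : 2 ^ (h + 1) * 2 ^ (h + 1) = 4 * (2 ^ h * 2 ^ h) := by ring
    omega
  have := count_of_matrix (n := n) (r := r) hn' M hM2 (G.orderEmbOfCardLe hG) (by
    intro b
    have := G.orderEmbOfCardLe_mem hG b
    simpa [G] using this)
  refine this.trans (Nat.mul_le_mul_left _ (Nat.pow_le_pow_right (by norm_num) ?_))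
  have h1 : n / 2 ^ h * 2 ^ h ≤ n := Nat.div_mul_le_self _ _
  have h2 : (n / 2 ^ h + 1) * 2 ^ (h + 1) = 2 * (n / 2 ^ h * 2 ^ h) + 2 ^ (h + 1) := by ring
  omega

/-- Extend a pattern by fixed points at the end. -/
def extendPerm {k : ℕ} (q : Equiv.Perm (Fin k)) (e : ℕ) : Equiv.Perm (Fin (k + e)) :=
  finSumFinEquiv.symm.trans ((Equiv.sumCongr q (Equiv.refl _)).trans finSumFinEquiv)

lemma avCount_le_extend {k : ℕ} (q : Equiv.Perm (Fin k)) (e r n : ℕ) :
    avCount r n q ≤ avCount r n (extendPerm q e) := by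
  have key : ∀ π : Equiv.Perm (Fin n), ContainsDist r (extendPerm q e) π → ContainsDist r q π := by
    rintro π ⟨i, hi1, hi2⟩
    refine ⟨fun a => i (Fin.castAdd e a), fun j j' h => hi1 _ _ (by simpa using h), ?_⟩
    intro a b
    have hx : ∀ a, extendPerm q e (Fin.castAdd e a) = Fin.castAdd e (q a) := by
      intro a; simp [extendPerm]
    rw [hi2, hx, hx]
    exact Iff.rfl
  unfold avCount
  refine Nat.card_le_card_of_injective
    (fun π => ⟨π.1, fun h => π.2 (key _ h)⟩) ?_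
  intro π π' h
  exact Subtype.ext (by simpa using h)

lemma exists_threshold (c : ℕ) : ∃ h₀ : ℕ, ∀ h, h₀ ≤ h → c * (h + 3) ^ 12 ≤ 2 ^ h := by
  have h1 := tendsto_pow_const_div_const_pow_of_one_lt 12 (r := (2 : ℝ)) (by norm_num)
  have h2 : ∀ᶠ n : ℕ in Filter.atTop, (n : ℝ) ^ 12 / 2 ^ n < 1 / (8 * (c + 1)) :=
    h1.eventually (gt_mem_nhds (by positivity))
  obtain ⟨h₀, hh⟩ := Filter.eventually_atTop.mp h2
  refine ⟨h₀, fun h hle => ?_⟩
  have h3 := hh (h + 3) (by omega)
  rw [div_lt_div_iff₀ (by positivity) (by positivity), one_mul, pow_add] at h3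
  have h4 : (c : ℝ) * ((h + 3 : ℕ) : ℝ) ^ 12 ≤ 2 ^ h := by
    have : (0 : ℝ) ≤ ((h + 3 : ℕ) : ℝ) ^ 12 := by positivity
    generalize ((h + 3 : ℕ) : ℝ) ^ 12 = z at *
    generalize (2 : ℝ) ^ h = w at *
    nlinarith
  exact_mod_cast h4

end Pool.Agent.Lib.MP_52d9f3_co
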