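import Mathlib
import Pool.Agent.Lib.MP_52d9f3_co.Defs

namespace Pool.Agent.Lib.MP_52d9f3_co

open Finset

/-- A chain of `t + 1` spaced increasing entries ending at position `p`. -/
def Ch (r : ℕ) {n : ℕ} (π : Equiv.Perm (Fin n)) (t : ℕ) (p : Fin n) : Prop :=
  ∃ i : ℕ → Fin n, i t = p ∧
    ∀ j < t, (i j : ℕ) + (r + 1) ≤ (i (j + 1) : ℕ) ∧ π (i j) < π (i (j + 1))

lemma ch_zero (r : ℕ) {n : ℕ} (π : Equiv.Perm (Fin n)) (p : Fin n) : Ch r π 0 p :=
  ⟨fun _ => p, rfl, fun j hj => absurd hj (Nat.not_lt_zero j)⟩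

lemma ch_succ {r n : ℕ} {π : Equiv.Perm (Fin n)} {t : ℕ} {p p' : Fin n} (h : Ch r π t p)
    (h1 : (p : ℕ) + (r + 1) ≤ p') (h2 : π p < π p') : Ch r π (t + 1) p' := by
  obtain ⟨i, hi, hc⟩ := h
  refine ⟨fun j => if j ≤ t then i j else p', by simp, ?_⟩
  intro j hj
  have hj' : j ≤ t := by omega
  by_cases hjt : j + 1 ≤ t
  · simp only [hj', hjt, if_true]
    exact hc j (by omega)
  · have : j = t := by omega
    subst this
    simp only [hj', hjt, if_true, if_false, hi]
    exact ⟨h1, h2⟩

lemma contains_of_ch {r n k : ℕ} {π : Equiv.Perm (Fin n)} {p : Fin n} (h : Ch r π k p) :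
    ContainsDist r (1 : Equiv.Perm (Fin (k + 1))) π := by
  obtain ⟨i, -, hc⟩ := h
  refine ⟨fun j => i j, ?_, ?_⟩
  · intro j j' hj
    simp only [hj]
    exact (hc j (by omega)).1
  · have : StrictMono fun j : Fin (k + 1) => π (i j) := by
      rw [Fin.strictMono_iff_lt_succ]
      intro j
      simpa using (hc j j.2).2
    intro a b
    simpa using this.lt_iff_lt

/-- A permutation that preserves a colouring and is increasing on each colour class is trivial. -/
lemma eq_one_of_colour {n : ℕ} {K : Type*} (c : Fin n → K) (ρ : Equiv.Perm (Fin n))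
    (hc : ∀ p, c (ρ p) = c p) (hm : ∀ p p', c p = c p' → p < p' → ρ p < ρ p') : ρ = 1 := by
  have : ∀ p, ρ p = p := by
    intro p
    induction p using WellFoundedLT.induction with
    | ind p ih =>
      rcases lt_trichotomy (ρ p) p with h | h | h
      · exact ρ.injective (ih _ h)
      · exact h
      · exfalso
        set p' := ρ.symm p with hp'
        have h1 : ρ p' = p := by simp [hp']
        rcases lt_trichotomy p' p with h2 | h2 | h2
        · have := ih _ h2
          rw [h1] at this
          exact absurd this h2.ne'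
        · rw [h2] at h1
          exact absurd h1 h.ne'
        · have := hm p p' (by rw [← hc p', h1]) h2
          rw [h1] at this
          exact absurd (h.trans this) (lt_irrefl _)
  ext p
  simp [this p]

lemma exists_colour {r n k : ℕ} (π : Equiv.Perm (Fin n))
    (h : ¬ ContainsDist r (1 : Equiv.Perm (Fin (k + 1))) π) :
    ∃ c : Fin n → Fin (r + 1) × Fin (k + 1), ∀ p p', c p = c p' → p < p' → π p' < π p := by
  classical
  let rk : Fin n → ℕ := fun p => Nat.findGreatest (fun t => Ch r π t p) k
  have hrk : ∀ p, rk p ≤ k := fun p => Nat.findGreatest_le k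
  have hspec : ∀ p, Ch r π (rk p) p := fun p =>
    Nat.findGreatest_spec (P := fun t => Ch r π t p) (Nat.zero_le k) (ch_zero r π p)
  refine ⟨fun p => (⟨p % (r + 1), Nat.mod_lt _ (by omega)⟩, ⟨rk p, by have := hrk p; omega⟩), ?_⟩
  intro p p' hc hpp
  simp only [Prod.mk.injEq, Fin.mk.injEq] at hc
  obtain ⟨hc1, hc2⟩ := hc
  have hgap : (p : ℕ) + (r + 1) ≤ p' := by
    have h1 : (r + 1) ∣ (p' : ℕ) - p := (Nat.modEq_iff_dvd' hpp.le).mp hc1
    have h2 : 0 < (p' : ℕ) - p := by have : (p : ℕ) < p' := hpp; omega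
    have := Nat.le_of_dvd h2 h1
    omega
  rcases lt_trichotomy (π p') (π p) with h1 | h1 | h1
  · exact h1
  · exact absurd (π.injective h1) hpp.ne'
  · exfalso
    have h2 := ch_succ (hspec p) hgap h1
    have h3 : rk p < k := by
      rcases (hrk p).lt_or_eq with h3 | h3
      · exact h3
      · exact absurd (contains_of_ch (h3 ▸ hspec p)) h
    have h4 : rk p + 1 ≤ rk p' := Nat.le_findGreatest (P := fun t => Ch r π t p') h3 h2
    omega

theorem avCount_one_le (r n k : ℕ) :
    avCount r n (1 : Equiv.Perm (Fin (k + 1))) ≤ ((r + 1) * (k + 1)) ^ (2 * n) := by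
  classical
  have hex := fun π : {π : Equiv.Perm (Fin n) // ¬ ContainsDist r (1 : Equiv.Perm (Fin (k + 1))) π} =>
    exists_colour π.1 π.2
  choose c hc using hex
  let Φ : {π : Equiv.Perm (Fin n) // ¬ ContainsDist r (1 : Equiv.Perm (Fin (k + 1))) π} →
      (Fin n → Fin (r + 1) × Fin (k + 1)) × (Fin n → Fin (r + 1) × Fin (k + 1)) :=
    fun π => (c π, fun v => c π (π.1.symm v))
  have hΦ : Function.Injective Φ := by
    intro π π' h
    simp only [Φ, Prod.mk.injEq] at h
    obtain ⟨h1, h2⟩ := h
    have h3 : (π'.1⁻¹ * π.1) = 1 := by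
      apply eq_one_of_colour (c π)
      · intro p
        have := congrFun h2 (π.1 p)
        simp only [Equiv.symm_apply_apply] at this
        rw [this, h1]; rfl
      · intro p p' hcp hpp
        have h4 := hc π p p' hcp hpp
        have h5 : ∀ x, c π' ((π'.1⁻¹ * π.1) x) = c π x := by
          intro x
          have := congrFun h2 (π.1 x)
          simp only [Equiv.symm_apply_apply] at this
          rw [this]; rfl
        rcases lt_trichotomy ((π'.1⁻¹ * π.1) p) ((π'.1⁻¹ * π.1) p') with h6 | h6 | h6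
        · exact h6
        · exact absurd ((π'.1⁻¹ * π.1).injective h6) hpp.ne
        · have := hc π' _ _ (by rw [h5, h5, hcp]) h6
          simp only [Equiv.Perm.coe_mul, Function.comp_apply, Equiv.Perm.coe_inv,
            Equiv.apply_symm_apply] at this
          exact absurd (this.trans h4) (lt_irrefl _)
    apply Subtype.ext
    rw [inv_mul_eq_one] at h3
    exact h3.symm
  have := Nat.card_le_card_of_injective Φ hΦ
  unfold avCount
  refine this.trans (le_of_eq ?_)
  simp [Nat.card_eq_fintype_card, two_mul, pow_add]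

end Pool.Agent.Lib.MP_52d9f3_co
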